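import Pool.Agent.Helper48.TF.Defs4
import Pool.Agent.Helper41.TF.MAT

/-!
# TF, part GT (MP_097e5c_al): tensor products of good rings are good
-/

set_option autoImplicit false

open scoped TensorProduct

namespace Pool.TF48.H74

open Pool.TF48

/-- torsion-free groups are flat -/
theorem flat_of_tf {A : Type} [AddCommGroup A] (h : ∀ (k : ℕ) (s : A), k ≠ 0 → k • s = 0 → s = 0) :
    Module.Flat ℤ A := by
  rw [Module.Flat.flat_iff_torsion_eq_bot_of_isBezout]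
  rw [eq_bot_iff]
  intro x hx
  rw [Submodule.mem_torsion_iff] at hx
  obtain ⟨⟨a, ha⟩, hax⟩ := hx
  have ha0 : a ≠ 0 := nonZeroDivisors.ne_zero ha
  have h1 : (a.natAbs : ℕ) • x = 0 := by
    rcases Int.natAbs_eq a with h2 | h2
    · have h3 : a • x = 0 := hax
      rw [h2] at h3
      rwa [natCast_zsmul] at h3
    · have h3 : a • x = 0 := hax
      rw [h2, neg_smul, neg_eq_zero, natCast_zsmul] at h3
      exact h3
  exact h _ _ (Int.natAbs_ne_zero.2 ha0) h1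

theorem tf_mod {A B : Type} [AddCommGroup A] [AddCommGroup B]
    (hA : ∀ (k : ℕ) (s : A), k ≠ 0 → k • s = 0 → s = 0)
    (hB : ∀ (k : ℕ) (s : B), k ≠ 0 → k • s = 0 → s = 0) :
    ∀ (k : ℕ) (s : A ⊗[ℤ] B), k ≠ 0 → k • s = 0 → s = 0 := by
  intro k s hk hs
  have := flat_of_tf hA
  have := flat_of_tf hB
  have h1 : (k : ℤ) ∈ nonZeroDivisors ℤ := mem_nonZeroDivisors_of_ne_zero (by exact_mod_cast hk)
  have hf : @Module.Flat ℤ (A ⊗[ℤ] B) _ _ TensorProduct.leftModule := inferInstance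
  have h2 := @Module.Flat.isSMulRegular_of_nonZeroDivisors ℤ (A ⊗[ℤ] B) _ _
    TensorProduct.leftModule _ h1 hf
  refine h2 ?_
  have e : ∀ x : A ⊗[ℤ] B, @HSMul.hSMul ℤ (A ⊗[ℤ] B) (A ⊗[ℤ] B)
      (@instHSMul _ _ TensorProduct.leftModule.toSMul) (k : ℤ) x = k • x := by
    intro x
    exact @Nat.cast_smul_eq_nsmul ℤ (A ⊗[ℤ] B) _ _ TensorProduct.leftModule k x
  exact (e s).trans (hs.trans ((e 0).trans (smul_zero k)).symm)

section

variable {SA SB R : Type} [NonUnitalRing SA] [NonUnitalRing SB] [NonUnitalRing R]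

theorem tm (a a' : SA) (b b' : SB) :
    (a ⊗ₜ[ℤ] b) * (a' ⊗ₜ[ℤ] b') = (a * a') ⊗ₜ[ℤ] (b * b') :=
  Algebra.TensorProduct.tmul_mul_tmul ..

variable (SA SB) in
/-- the universal biadditive map -/
noncomputable def tau : SA →+ SB →+ (SA ⊗[ℤ] SB) where
  toFun a :=
    { toFun := fun b => a ⊗ₜ[ℤ] b
      map_zero' := TensorProduct.tmul_zero _ _
      map_add' := TensorProduct.tmul_add _ }
  map_zero' := by ext b; exact TensorProduct.zero_tmul _ _
  map_add' := by intro a a'; ext b; exact TensorProduct.add_tmul _ _ _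

theorem tau_apply (a : SA) (b : SB) : tau SA SB a b = a ⊗ₜ[ℤ] b := rfl

theorem gen (s : SA ⊗[ℤ] SB) : s ∈ AddSubgroup.closure {s | ∃ a b, s = tau SA SB a b} := by
  induction s using TensorProduct.induction_on with
  | zero => exact zero_mem _
  | tmul a b => exact AddSubgroup.subset_closure ⟨a, b, rfl⟩
  | add x y hx hy => exact add_mem hx hy

theorem ringhom (f0 : SA →+ SB →+ R)
    (hm : ∀ a b a' b', f0 a b * f0 a' b' = f0 (a * a') (b * b')) :
    ∃ f : SA ⊗[ℤ] SB →ₙ+* R, ∀ a b, f (a ⊗ₜ[ℤ] b) = f0 a b := by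
  have hb : ∀ (r : ℤ) (a : SA) (b : SB), f0 (r • a) b = f0 a (r • b) := by
    intro r a b
    rw [map_zsmul, map_zsmul]
    rfl
  have hf : ∀ a b, TensorProduct.liftAddHom f0 hb (a ⊗ₜ[ℤ] b) = f0 a b := fun a b => rfl
  refine ⟨{ toFun := TensorProduct.liftAddHom f0 hb
            map_mul' := ?_
            map_zero' := map_zero _
            map_add' := map_add _ }, hf⟩
  intro x y
  induction x using TensorProduct.induction_on with
  | zero =>
    have e1 : (TensorProduct.liftAddHom f0 hb) 0 = 0 := map_zero _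
    rw [e1, zero_mul]
    exact (congrArg _ (zero_mul y)).trans e1
  | add x1 x2 hx1 hx2 => rw [add_mul, map_add, map_add, add_mul, hx1, hx2]
  | tmul a b =>
    induction y using TensorProduct.induction_on with
    | zero =>
      have e1 : (TensorProduct.liftAddHom f0 hb) 0 = 0 := map_zero _
      rw [e1, mul_zero]
      exact (congrArg _ (mul_zero (a ⊗ₜ[ℤ] b))).trans e1
    | add y1 y2 hy1 hy2 => rw [mul_add, map_add, map_add, mul_add, hy1, hy2]
    | tmul a' b' =>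
      rw [tm, hf, hf, hf, hm]

end

theorem tfS {SA SB : Type} [NonUnitalRing SA] [NonUnitalRing SB] (hA : TorsionFree SA)
    (hB : TorsionFree SB) : TorsionFree (SA ⊗[ℤ] SB) := tf_mod hA hB

theorem mi_tensor (h2 : S_REG) {SA SB : Type} [NonUnitalRing SA] [NonUnitalRing SB]
    (hTA : TorsionFree SA) (hTB : TorsionFree SB) {dA dB : ℕ} (hA : MI dA SA) (hB : MI dB SB) :
    ∃ n, MI n (SA ⊗[ℤ] SB) :=
  h2 SA SB (SA ⊗[ℤ] SB) dA dB (tau SA SB) hA hB (tfS hTA hTB) (fun a b a' b' => tm a a' b b') gen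

theorem gt (h1 : S_LIN) (h2 : S_REG) : S_GT := by
  intro A B R _ _ _ β hA hB hmul hgen
  obtain ⟨SA, iA, hPA, hTA, φA, hφA⟩ := hA
  obtain ⟨SB, iB, hPB, hTB, φB, hφB⟩ := hB
  obtain ⟨dA, hdA⟩ := h1 SA hTA hPA
  obtain ⟨dB, hdB⟩ := h1 SB hTB hPB
  obtain ⟨n, hn⟩ := mi_tensor h2 hTA hTB hdA hdB
  obtain ⟨φ, hφ⟩ := ringhom ((β.comp (φA : SA →+ A)).compl₂ (φB : SB →+ B)) (by
    intro a b a' b'
    show β (φA a) (φB b) * β (φA a') (φB b') = β (φA (a * a')) (φB (b * b'))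
    rw [hmul, map_mul φA, map_mul φB])
  refine ⟨SA ⊗[ℤ] SB, inferInstance, H41.pi_of_mi hn, tfS hTA hTB, φ, fun r => ?_⟩
  refine AddSubgroup.closure_induction (p := fun r _ => ∃ s, φ s = r) ?_ ?_ ?_ ?_ (hgen r)
  · rintro _ ⟨a, b, rfl⟩
    obtain ⟨a', rfl⟩ := hφA a
    obtain ⟨b', rfl⟩ := hφB b
    exact ⟨a' ⊗ₜ[ℤ] b', hφ a' b'⟩
  · exact ⟨0, map_zero φ⟩
  · rintro x y _ _ ⟨a, rfl⟩ ⟨b, rfl⟩
    exact ⟨a + b, map_add φ a b⟩
  · rintro x _ ⟨a, rfl⟩
    exact ⟨-a, map_neg φ a⟩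

end Pool.TF48.H74
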